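import Pool.Agent.Q127.SM.Stm

/-! Project SM: job CHR. -/

namespace Pool.Agent.Q238.SM

open Pool.Agent.Q127.SM

theorem chr : S_chr := by
  intro q hq h4
  have : Fact q.Prime := ⟨hq⟩
  have : NeZero q := ⟨hq.ne_zero⟩
  have hodd : (quadraticChar (ZMod q)) (-1) = -1 := by
    rw [quadraticChar_neg_one (by
      rw [ZMod.ringChar_zmod_n]; rintro rfl; omega), ZMod.card, ZMod.χ₄_nat_three_mod_four h4]
  refine ⟨(quadraticChar (ZMod q)).ringHomComp (Int.castRingHom ℂ), ?_, ?_, ?_⟩
  · have h2 := (quadraticChar_isQuadratic (ZMod q)).sq_eq_one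
    rw [MulChar.ringHomComp_pow, h2, MulChar.ringHomComp_one]
  · set χ : DirichletCharacter ℂ q := (quadraticChar (ZMod q)).ringHomComp (Int.castRingHom ℂ) with hχ
    rw [DirichletCharacter.isPrimitive_def]
    rcases (Nat.dvd_prime hq).1 χ.conductor_dvd_level with h | h
    · exfalso
      have h1 := DirichletCharacter.eq_one_iff_conductor_eq_one.2 h
      have h2 : χ (-1) = -1 := by
        rw [hχ, MulChar.ringHomComp_apply, hodd]; simp
      rw [h1, MulChar.one_apply (by simp)] at h2
      norm_num at h2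
    · exact h
  · rw [MulChar.ringHomComp_apply, hodd]; simp

end Pool.Agent.Q238.SM
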